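import Pool.Agent.Helper87.VM.Lib2

set_option autoImplicit false

/-! Module HCUR: the members of the family are immersed injective curves. -/

namespace Pool.Agent.Helper87.VM

open MvPolynomial Pool.Agent.Helper48.VMRT

/-- The derivative of a binary form along a line. -/
theorem hcur_line (d : ℕ) (p : Polynomial ℂ) (s t A B : ℂ) :
    HasDerivAt (fun e : ℂ => hev d p (s + e * A) (t + e * B))
      (A * deriv (fun x => hev d p x t) s + B * deriv (fun x => hev d p s x) t) 0 := by
  have hd : Differentiable ℂ (fun z : ℂ × ℂ => hev d p z.1 z.2) := by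
    unfold hev
    fun_prop
  have hf : HasFDerivAt (fun z : ℂ × ℂ => hev d p z.1 z.2)
      (fderiv ℂ (fun z : ℂ × ℂ => hev d p z.1 z.2) (s, t)) (s, t) := (hd (s, t)).hasFDerivAt
  have h1 : HasDerivAt (fun x : ℂ => hev d p x t)
      (fderiv ℂ (fun z : ℂ × ℂ => hev d p z.1 z.2) (s, t) (1, 0)) s := by
    have hg : HasDerivAt (fun x : ℂ => ((x, t) : ℂ × ℂ)) (1, 0) s :=
      (hasDerivAt_id' s).prodMk (hasDerivAt_const s t)
    exact HasFDerivAt.comp_hasDerivAt s hf hg
  have h2 : HasDerivAt (fun x : ℂ => hev d p s x)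
      (fderiv ℂ (fun z : ℂ × ℂ => hev d p z.1 z.2) (s, t) (0, 1)) t := by
    have hg : HasDerivAt (fun x : ℂ => ((s, x) : ℂ × ℂ)) (0, 1) t :=
      (hasDerivAt_const t s).prodMk (hasDerivAt_id' t)
    exact HasFDerivAt.comp_hasDerivAt t hf hg
  rw [h1.deriv, h2.deriv]
  have hl : A * fderiv ℂ (fun z : ℂ × ℂ => hev d p z.1 z.2) (s, t) (1, 0) +
      B * fderiv ℂ (fun z : ℂ × ℂ => hev d p z.1 z.2) (s, t) (0, 1) =
      fderiv ℂ (fun z : ℂ × ℂ => hev d p z.1 z.2) (s, t) (A, B) := by
    have e : ((A, B) : ℂ × ℂ) = A • ((1, 0) : ℂ × ℂ) + B • ((0, 1) : ℂ × ℂ) := by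
      simp
    rw [e, map_add, map_smul, map_smul, smul_eq_mul, smul_eq_mul]
  rw [hl]
  have hg : HasDerivAt (fun e : ℂ => ((s + e * A, t + e * B) : ℂ × ℂ)) (A, B) 0 := by
    have ha : HasDerivAt (fun e : ℂ => s + e * A) A 0 := by
      have := ((hasDerivAt_id' (0 : ℂ)).mul_const A).const_add s
      rwa [one_mul] at this
    have hb : HasDerivAt (fun e : ℂ => t + e * B) B 0 := by
      have := ((hasDerivAt_id' (0 : ℂ)).mul_const B).const_add t
      rwa [one_mul] at this
    exact ha.prodMk hb
  have hf' : HasFDerivAt (fun z : ℂ × ℂ => hev d p z.1 z.2)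
      (fderiv ℂ (fun z : ℂ × ℂ => hev d p z.1 z.2) (s, t)) (s + 0 * A, t + 0 * B) := by
    rw [zero_mul, zero_mul, add_zero, add_zero]
    exact hf
  exact HasFDerivAt.comp_hasDerivAt (0 : ℂ) hf' hg

/-- Euler's identity for binary forms. -/
theorem hcur_euler (d : ℕ) (p : Polynomial ℂ) (s t : ℂ) :
    s * deriv (fun x => hev d p x t) s + t * deriv (fun x => hev d p s x) t =
      d * hev d p s t := by
  have h1 := hcur_line d p s t s t
  have h2 : HasDerivAt (fun e : ℂ => hev d p (s + e * s) (t + e * t)) (d * hev d p s t) 0 := by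
    have e : (fun e : ℂ => hev d p (s + e * s) (t + e * t)) =
        fun e => (1 + e) ^ d * hev d p s t := by
      funext e
      rw [← hev_smul_smul]
      congr 1 <;> ring
    rw [e]
    have h3 : HasDerivAt (fun e : ℂ => (1 + e)) 1 0 := (hasDerivAt_id' (0 : ℂ)).const_add 1
    have h4 := (h3.pow d).mul_const (hev d p s t)
    have h5 : (d : ℂ) * (1 + 0) ^ (d - 1) * 1 * hev d p s t = d * hev d p s t := by
      rw [add_zero, one_pow, mul_one, mul_one]
    rw [h5] at h4
    exact h4
  exact h1.unique h2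

theorem hcur_pair {κ : Type} {p q : κ → ℂ} (h : LinearIndependent ℂ ![p, q]) {s t : ℂ}
    (h0 : s • p + t • q = 0) : s = 0 ∧ t = 0 :=
  LinearIndependent.pair_iff.1 h s t h0

theorem st_HCUR (hM : ST_MEM) : ST_HCUR := by
  intro D hD c hcH
  obtain ⟨b, p, q, hP, hc⟩ := hcH
  obtain ⟨y, η, hMy, hMη, hseg, hyY, hpt, -⟩ := hM D hD b p q hP c hc
  have hkpos := hD.kpos
  have hx : ∀ s t : ℂ, (s, t) ≠ (0, 0) → s • p + t • q ≠ 0 := by
    intro s t hst h0
    obtain ⟨h1, h2⟩ := hcur_pair hP.ind h0
    exact hst (by rw [h1, h2])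
  have hne : ∀ s t : ℂ, (s, t) ≠ (0, 0) → pt c s t ≠ 0 := by
    intro s t hst
    rw [hpt]
    exact hD.xd.ne b hP.b_mem hP.b_ne _ (hyY s t) (hMy.ne s t hst)
  have huniq : ∀ s t : ℂ, (s, t) ≠ (0, 0) → ∀ s' t' : ℂ, (s', t') ≠ (0, 0) →
      (∃ a : ℂ, pt c s' t' = a • pt c s t) → s * t' = t * s' := by
    intro s t hst s' t' hst' ⟨a, ha⟩
    rw [hpt, hpt] at ha
    obtain ⟨g, c1, d1, h1, h2⟩ := hD.xd.sep b hP.b_mem hP.b_ne _ (hyY s t) (hMy.ne s t hst)
      b hP.b_mem hP.b_ne _ (hyY s' t') (hMy.ne s' t' hst') a ha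
    have hg : g = 1 := by
      by_contra hg
      have hc1 : c1 ≠ 0 := by
        rintro rfl
        rw [zero_smul] at h1
        exact hP.b_ne h1
      refine hD.Bfree.2 g hg b hP.b_mem hP.b_ne c1⁻¹ ?_
      conv_rhs => rw [h1]
      rw [smul_smul, inv_mul_cancel₀ hc1, one_smul]
    subst hg
    rw [map_one, Module.End.one_apply, hseg, hseg, ← seg_smul_left] at h2
    have h3 : seg (s' • p + t' • q) (hevv (D.a - 1) η s' t') ≠ 0 := by
      rw [← hseg]
      exact hMy.ne s' t' hst'
    obtain ⟨c2, hc2, h4, -⟩ := seg_eq_seg h2 h3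
    have h5 : (d1 * s - c2 * s') • p + (d1 * t - c2 * t') • q = 0 := by
      have : d1 • (s • p + t • q) - c2 • (s' • p + t' • q) = 0 := by rw [h4, sub_self]
      rw [← this]
      module
    obtain ⟨h6, h7⟩ := hcur_pair hP.ind h5
    have h8 : c2 * (s * t' - t * s') = 0 := by
      linear_combination t * h6 - s * h7
    have h9 := (mul_eq_zero.1 h8).resolve_left hc2
    linear_combination h9
  refine ⟨⟨hne, ?_, ?_⟩, ?_⟩
  · intro s t
    exact ⟨b, hP.b_mem, _, hyY s t, hpt s t⟩
  · have : {z : ℂ | ∃ s t : ℂ, (s, t) ≠ (0, 0) ∧ t ≠ z * s ∧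
        ∃ a : ℂ, pt c s t = a • pt c 1 z} = ∅ := by
      refine Set.eq_empty_of_forall_notMem ?_
      rintro z ⟨s, t, hst, htz, ha⟩
      have h1 := huniq 1 z (by simp) s t hst ha
      rw [one_mul] at h1
      exact htz h1
    rw [this]
    exact Set.finite_empty
  · intro s t hst
    refine ⟨hst, ?_, fun s' t' hst' ha => huniq s t hst s' t' hst' ha⟩
    rw [LinearIndependent.pair_iff]
    intro A B hAB
    -- the derivatives of the lift
    let v : Option (Fin D.w) × D.ν → ℂ := fun i =>
      A * deriv (fun x => hev D.a (y i) x t) s + B * deriv (fun x => hev D.a (y i) s x) t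
    let η' : D.ν → ℂ := fun i =>
      A * deriv (fun x => hev (D.a - 1) (η i) x t) s +
        B * deriv (fun x => hev (D.a - 1) (η i) s x) t
    have hv : ∀ i, HasDerivAt (fun e : ℂ => hevv D.a y (s + e * A) (t + e * B) i) (v i) 0 :=
      fun i => hcur_line D.a (y i) s t A B
    have h00 : hevv D.a y (s + 0 * A) (t + 0 * B) = hevv D.a y s t := by
      rw [zero_mul, zero_mul, add_zero, add_zero]
    have hd2 : d2 D.E b (hevv D.a y s t) 0 v = 0 := by
      funext i
      have h1 : HasDerivAt (fun e : ℂ => ev2 D.E b (hevv D.a y (s + e * A) (t + e * B)) i)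
          (d2 D.E b (hevv D.a y (s + 0 * A) (t + 0 * B)) 0 v i) 0 :=
        hasDerivAt_ev2 D.E (β := fun _ => b)
          (η := fun e : ℂ => hevv D.a y (s + e * A) (t + e * B)) (β' := 0) (η' := v)
          (τ := (0 : ℂ)) (fun j => hasDerivAt_const _ _) hv i
      rw [h00] at h1
      have h2 : HasDerivAt (fun e : ℂ => ev2 D.E b (hevv D.a y (s + e * A) (t + e * B)) i)
          (A * deriv (fun x => hev D.dg (cpol c i) x t) s +
            B * deriv (fun x => hev D.dg (cpol c i) s x) t) 0 := by
        have h3 := hcur_line D.dg (cpol c i) s t A B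
        have h4 : (fun e : ℂ => hev D.dg (cpol c i) (s + e * A) (t + e * B)) =
            fun e : ℂ => ev2 D.E b (hevv D.a y (s + e * A) (t + e * B)) i := by
          funext e
          rw [← hpt, ← hevv_cpol]
          rfl
        rw [h4] at h3
        exact h3
      rw [h1.unique h2]
      have h5 := congrFun hAB i
      have h6 : dps c s t i = deriv (fun x => hev D.dg (cpol c i) x t) s := by
        unfold dps
        congr 1
        funext x
        rw [← hevv_cpol]
        rfl
      have h7 : dpt c s t i = deriv (fun x => hev D.dg (cpol c i) s x) t := by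
        unfold dpt
        congr 1
        funext x
        rw [← hevv_cpol]
        rfl
      rw [← h6, ← h7]
      exact h5
    have hvt : v ∈ tsp D.Y (hevv D.a y s t) := by
      have h1 : v ∈ tsp D.Y (hevv D.a y (s + 0 * A) (t + 0 * B)) :=
        deriv_mem_tsp (γ := fun e : ℂ => hevv D.a y (s + e * A) (t + e * B)) (γ' := v)
          (τ := (0 : ℂ)) hv (fun e => hyY _ _)
      rwa [h00] at h1
    obtain ⟨c', h1, h2⟩ := hD.xd.ker b hP.b_mem hP.b_ne _ (hyY s t) (hMy.ne s t hst) 0
      (Submodule.zero_mem _) v hvt hd2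
    have hc' : c' = 0 := by
      rcases smul_eq_zero.1 h1.symm with h3 | h3
      · rcases mul_eq_zero.1 h3 with h4 | h4
        · exact h4
        · exfalso
          have : D.k = 0 := by exact_mod_cast h4
          omega
      · exact absurd h3 hP.b_ne
    rw [hc', zero_mul, neg_zero, zero_smul] at h2
    -- the derivative of the tensor
    have hprod : ∀ i j, (A * p i + B * q i) * hevv (D.a - 1) η s t j +
        (s • p + t • q) i * η' j = 0 := by
      intro i j
      have h3 : HasDerivAt (fun e : ℂ => (s + e * A) * p i + (t + e * B) * q i)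
          (A * p i + B * q i) 0 := by
        have ha : HasDerivAt (fun e : ℂ => (s + e * A) * p i) (A * p i) 0 := by
          have := ((hasDerivAt_id' (0 : ℂ)).mul_const A).const_add s
          rw [one_mul] at this
          exact this.mul_const (p i)
        have hb : HasDerivAt (fun e : ℂ => (t + e * B) * q i) (B * q i) 0 := by
          have := ((hasDerivAt_id' (0 : ℂ)).mul_const B).const_add t
          rw [one_mul] at this
          exact this.mul_const (q i)
        exact ha.add hb
      have h4 : HasDerivAt (fun e : ℂ => hev (D.a - 1) (η j) (s + e * A) (t + e * B))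
          (η' j) 0 := hcur_line (D.a - 1) (η j) s t A B
      have h5 := h3.mul h4
      have h6 : (fun e : ℂ => hevv D.a y (s + e * A) (t + e * B) (i, j)) =
          (fun e : ℂ => (s + e * A) * p i + (t + e * B) * q i) *
            fun e : ℂ => hev (D.a - 1) (η j) (s + e * A) (t + e * B) := by
        funext e
        rw [hseg]
        rfl
      have h7 := hv (i, j)
      rw [h6] at h7
      have h8 := h7.unique h5
      rw [h2] at h8
      simp only [zero_mul, add_zero, Pi.zero_apply] at h8
      exact h8.symm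
    obtain ⟨j, hj⟩ := Function.ne_iff.1 (hMη.ne s t hst)
    have hj' : hevv (D.a - 1) η s t j ≠ 0 := hj
    have hAB2 : (A - (-(η' j) / hevv (D.a - 1) η s t j) * s) • p +
        (B - (-(η' j) / hevv (D.a - 1) η s t j) * t) • q = 0 := by
      funext i
      have h3 := hprod i j
      simp only [Pi.add_apply, Pi.smul_apply, smul_eq_mul, Pi.zero_apply] at h3 ⊢
      field_simp
      linear_combination h3
    obtain ⟨h3, h4⟩ := hcur_pair hP.ind hAB2
    generalize -(η' j) / hevv (D.a - 1) η s t j = c2 at h3 h4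
    have hA : A = c2 * s := by linear_combination h3
    have hB : B = c2 * t := by linear_combination h4
    obtain ⟨i, hi⟩ := Function.ne_iff.1 (hMy.ne s t hst)
    have hi' : hev D.a (y i) s t ≠ 0 := hi
    have h5 : v i = 0 := by rw [h2]; rfl
    have h6 : v i = c2 * (D.a * hev D.a (y i) s t) := by
      rw [← hcur_euler]
      change A * _ + B * _ = _
      rw [hA, hB]
      ring
    have ha : (D.a : ℂ) ≠ 0 := by
      have := hD.fd.two_le
      exact_mod_cast (by omega : D.a ≠ 0)
    have hc2 : c2 = 0 := by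
      rw [h5] at h6
      exact (mul_eq_zero.1 h6.symm).resolve_right (mul_ne_zero ha hi')
    rw [hA, hB, hc2]
    simp

end Pool.Agent.Helper87.VM
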